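import Pool.Agent.Run7.h378.IfaceF

/-!
# MP_5766af_al, piece F14: bookkeeping
-/

set_option autoImplicit false

namespace Pool.Agent.Run7.h324.DA

open Pool.Agent.Run7.h378

/-- PIECE F14. -/
theorem main_F14 : S_book := by
  intro X V M hc hne T hT x₀
  have hen : ∀ l x, ∃ f : ℕ → V, M l x = Set.range f := fun l x =>
    (hc l x).exists_eq_range (hne l x)
  choose en hen using hen
  choose nx hnx using hT
  let Sta : ℕ → Type := fun l =>
    {p : X l × (ℕ → ℕ → V) // ∀ j, j ≤ l → ∀ k, p.2 j k ∈ M l p.1}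
  let jj : ℕ → ℕ := fun l => (Nat.unpair (Nat.unpair l).1).1
  let kk : ℕ → ℕ := fun l => (Nat.unpair (Nat.unpair l).1).2
  have hjj : ∀ l, jj l ≤ l := fun l =>
    (Nat.unpair_left_le _).trans (Nat.unpair_left_le _)
  have henm : ∀ l x k, en l x k ∈ M l x := by
    intro l x k
    rw [hen l x]
    exact ⟨k, rfl⟩
  let s0 : Sta 0 := ⟨(x₀, fun _ => en 0 x₀), fun j _ k => henm 0 x₀ k⟩
  let el : ∀ l, Sta l → V := fun l s => s.1.2 (jj l) (kk l)
  have hel : ∀ l (s : Sta l), el l s ∈ M l s.1.1 := fun l s => s.2 _ (hjj l) _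
  let xs : ∀ l, Sta l → X (l + 1) := fun l s => nx l s.1.1 (el l s) (hel l s)
  let st : ∀ l, Sta l → Sta (l + 1) := fun l s =>
    ⟨(xs l s, fun j => if j ≤ l then s.1.2 j else en (l + 1) (xs l s)), by
      intro j hj k
      by_cases h : j ≤ l
      · simp only [h, if_true]
        exact (hnx l s.1.1 (el l s) (hel l s)).2 (s.2 j h k)
      · simp only [h, if_false]
        exact henm _ _ _⟩
  let s : ∀ l, Sta l := fun l => Nat.rec s0 st l
  have hs : ∀ l, s (l + 1) = st l (s l) := fun l => rfl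
  have hh : ∀ l j, j ≤ l → (s l).1.2 j = en j (s j).1.1 := by
    intro l
    induction l with
    | zero =>
      intro j hj
      obtain rfl : j = 0 := by omega
      rfl
    | succ l ih =>
      intro j hj
      by_cases h : j ≤ l
      · rw [← ih j h, hs]
        show (if j ≤ l then (s l).1.2 j else en (l + 1) (xs l (s l))) = _
        rw [if_pos h]
      · obtain rfl : j = l + 1 := by omega
        rw [hs]
        show (if l + 1 ≤ l then (s l).1.2 (l + 1) else en (l + 1) (xs l (s l))) = _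
        rw [if_neg h]
  refine ⟨fun l => (s l).1.1, fun l => el l (s l), rfl, fun l => hel l (s l), ?_, ?_, ?_⟩
  · intro l
    exact (hnx l (s l).1.1 (el l (s l)) (hel l (s l))).2
  · intro l
    exact (hnx l (s l).1.1 (el l (s l)) (hel l (s l))).1
  · intro l v hv l₀
    rw [hen l (s l).1.1] at hv
    obtain ⟨k, hk⟩ := hv
    refine ⟨Nat.pair (Nat.pair l k) l₀, Nat.right_le_pair _ _, ?_⟩
    show (s (Nat.pair (Nat.pair l k) l₀)).1.2 (jj (Nat.pair (Nat.pair l k) l₀))
      (kk (Nat.pair (Nat.pair l k) l₀)) = v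
    have h1 : jj (Nat.pair (Nat.pair l k) l₀) = l := by simp [jj]
    have h2 : kk (Nat.pair (Nat.pair l k) l₀) = k := by simp [kk]
    have h3 := hh (Nat.pair (Nat.pair l k) l₀) (jj (Nat.pair (Nat.pair l k) l₀)) (hjj _)
    rw [h3, h2, ← hk]
    rw [h1]

end Pool.Agent.Run7.h324.DA
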