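import Pool.Agent.Run7.h378.Defs

/-!
# MP_5766af_al, piece F3: the relative algebraic closure is a pregeometry
-/

set_option autoImplicit false

namespace Pool.Agent.Run7.h324.DA

open Pool.Agent.Run7.h378 Finset

theorem alg_iff {K : Type} [Field K] (L : Subfield K) (y : K) :
    IsAlgebraic L y ↔ ∃ p : Polynomial K, p ≠ 0 ∧ (∀ i, p.coeff i ∈ L) ∧ p.eval y = 0 := by
  constructor
  · rintro ⟨p, hp, hy⟩
    refine ⟨p.map L.subtype, ?_, ?_, ?_⟩
    · intro h
      exact hp ((Polynomial.map_eq_zero L.subtype).1 h)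
    · intro i
      rw [Polynomial.coeff_map]
      exact (p.coeff i).2
    · rw [Polynomial.eval_map]
      exact hy
  · rintro ⟨p, hp, hc, hy⟩
    have h : p ∈ Polynomial.lifts L.subtype := by
      rw [Polynomial.lifts_iff_coeff_lifts]
      intro n
      exact ⟨⟨_, hc n⟩, rfl⟩
    rw [Polynomial.mem_lifts] at h
    obtain ⟨q, rfl⟩ := h
    refine ⟨q, ?_, ?_⟩
    · rintro rfl
      simp at hp
    · rw [Polynomial.eval_map] at hy
      exact hy

theorem acl_iff {K : Type} [Field K] (S : Set K) (y : K) :
    y ∈ acl S ↔ ∃ p : Polynomial K, p ≠ 0 ∧ (∀ i, p.coeff i ∈ Subfield.closure S) ∧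
      p.eval y = 0 := alg_iff _ _

theorem acl_mono {K : Type} [Field K] (S T : Set K) (h : S ⊆ T) : acl S ⊆ acl T := by
  intro y hy
  rw [acl_iff] at hy ⊢
  obtain ⟨p, hp, hc, hy⟩ := hy
  exact ⟨p, hp, fun i => Subfield.closure_mono h (hc i), hy⟩

theorem sub_acl {K : Type} [Field K] (S : Set K) : S ⊆ acl S := by
  intro y hy
  exact isAlgebraic_algebraMap (⟨y, Subfield.subset_closure hy⟩ : Subfield.closure S)

theorem acl_field {K : Type} [Field K] (S : Set K) :
    ∃ F : Subfield K, (F : Set K) = acl S := by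
  refine ⟨(algebraicClosure (Subfield.closure S) K).toSubfield, ?_⟩
  ext y
  exact mem_algebraicClosure_iff

theorem acl_subfield_iff {K : Type} [Field K] (F : Subfield K) (y : K) :
    y ∈ acl (F : Set K) ↔ IsAlgebraic F y := by
  rw [acl_iff, alg_iff, Subfield.closure_eq]

theorem acl_idem {K : Type} [Field K] (S : Set K) : acl (acl S) ⊆ acl S := by
  intro y hy
  let A := algebraicClosure (Subfield.closure S) K
  have hA : (A.toSubfield : Set K) = acl S := by
    ext y
    exact mem_algebraicClosure_iff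
  rw [← hA, acl_subfield_iff, alg_iff] at hy
  have h1 : IsAlgebraic A y := by
    obtain ⟨p, hp, hc, hy⟩ := hy
    have h : p ∈ Polynomial.lifts (algebraMap A K) := by
      rw [Polynomial.lifts_iff_coeff_lifts]
      intro n
      exact ⟨⟨_, hc n⟩, rfl⟩
    rw [Polynomial.mem_lifts] at h
    obtain ⟨q, rfl⟩ := h
    refine ⟨q, ?_, ?_⟩
    · rintro rfl
      simp at hp
    · rw [Polynomial.eval_map] at hy
      exact hy
  have h2 : IsAlgebraic (Subfield.closure S) y :=
    h1.restrictScalars (Subfield.closure S)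
  exact h2

theorem acl_trans {K : Type} [Field K] (S T : Set K) (h : T ⊆ acl S) :
    acl (S ∪ T) ⊆ acl S :=
  (acl_mono _ _ (Set.union_subset (sub_acl S) h)).trans (acl_idem S)

theorem acl_map {K : Type} [Field K] (τ : K ≃+* K) (S : Set K) (y : K) (hy : y ∈ acl S) :
    τ y ∈ acl (τ '' S) := by
  rw [acl_iff] at hy ⊢
  obtain ⟨p, hp, hc, hy⟩ := hy
  refine ⟨p.map (τ : K →+* K), ?_, ?_, ?_⟩
  · intro h
    exact hp ((Polynomial.map_eq_zero (τ : K →+* K)).1 h)
  · intro i
    rw [Polynomial.coeff_map]
    have h1 := Set.mem_image_of_mem (τ : K →+* K) (hc i)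
    have h2 := RingHom.map_field_closure (τ : K →+* K) S
    have h3 : (τ : K →+* K) (p.coeff i) ∈ (Subfield.closure S).map (τ : K →+* K) := h1
    rw [h2] at h3
    exact h3
  · rw [Polynomial.eval_map]
    have := Polynomial.hom_eval₂ p (RingHom.id K) (τ : K →+* K) y
    rw [Polynomial.eval₂_id, hy, map_zero] at this
    simpa using this.symm

theorem acl_countable {K : Type} [Field K] (S : Set K) (hS : S.Countable) :
    (acl S).Countable := by
  have h1 : Countable (Subfield.closure S) := by
    rw [← Cardinal.mk_le_aleph0_iff]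
    refine (Subfield.cardinalMk_closure_le_max S).trans ?_
    rw [max_le_iff]
    exact ⟨hS.le_aleph0, le_rfl⟩
  exact Algebraic.countable (Subfield.closure S) K

theorem acl_poly {K : Type} [Field K] (F : Subfield K) (y : K) : y ∈ acl (F : Set K) ↔
    ∃ p : Polynomial F, p ≠ 0 ∧ Polynomial.aeval y p = 0 := acl_subfield_iff F y

theorem closure_adjoin {K : Type} [Field K] (F : Subfield K) (t : K) :
    (IntermediateField.adjoin F {t}).toSubfield = Subfield.closure ((F : Set K) ∪ {t}) := by
  rw [IntermediateField.adjoin_toSubfield]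
  congr 2
  ext x
  constructor
  · rintro ⟨a, rfl⟩
    exact a.2
  · intro hx
    exact ⟨⟨x, hx⟩, rfl⟩

theorem acl_poly2 {K : Type} [Field K] (F : Subfield K) (t y : K)
    (hy : y ∈ acl ((F : Set K) ∪ {t})) :
    ∃ (n : ℕ) (p : ℕ → Polynomial F), Polynomial.aeval t (p n) ≠ 0 ∧
      ∑ i ∈ Finset.range (n + 1), Polynomial.aeval t (p i) * y ^ i = 0 := by
  rw [acl_iff, ← closure_adjoin] at hy
  have h1 : IsAlgebraic (IntermediateField.adjoin F {t}) y := by
    obtain ⟨p, hp, hc, hy⟩ := hy
    have h : p ∈ Polynomial.lifts (algebraMap (IntermediateField.adjoin F {t}) K) := by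
      rw [Polynomial.lifts_iff_coeff_lifts]
      intro n
      exact ⟨⟨_, hc n⟩, rfl⟩
    rw [Polynomial.mem_lifts] at h
    obtain ⟨q, rfl⟩ := h
    refine ⟨q, ?_, ?_⟩
    · rintro rfl
      simp at hp
    · rw [Polynomial.eval_map] at hy
      exact hy
  open IntermediateField.algebraAdjoinAdjoin in
  have h2 : IsAlgebraic (Algebra.adjoin F {t}) y :=
    (IsFractionRing.isAlgebraic_iff (Algebra.adjoin F {t})
      (IntermediateField.adjoin F {t}) K).2 h1
  obtain ⟨q, hq, hqy⟩ := h2
  have h3 : ∀ a : Algebra.adjoin F {t}, ∃ p : Polynomial F, Polynomial.aeval t p = (a : K) := by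
    intro a
    have h4 : ∀ b : K, b ∈ Algebra.adjoin F {t} → ∃ p : Polynomial F, Polynomial.aeval t p = b := by
      intro b hb
      rw [Algebra.adjoin_singleton_eq_range_aeval] at hb
      exact hb
    exact h4 _ a.2
  choose P hP using h3
  refine ⟨q.natDegree, fun i => P (q.coeff i), ?_, ?_⟩
  · rw [hP]
    intro h
    apply hq
    rw [← Polynomial.leadingCoeff_eq_zero]
    exact Subtype.ext h
  · rw [Polynomial.aeval_eq_sum_range] at hqy
    rw [← hqy]
    apply Finset.sum_congr rfl
    intro i _
    rw [hP, Algebra.smul_def]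
    rfl

theorem aeval_mem {K : Type} [Field K] (F : Subfield K) (t : K) (p : Polynomial F) :
    Polynomial.aeval t p ∈ Subfield.closure ((F : Set K) ∪ {t}) := by
  rw [Polynomial.aeval_eq_sum_range]
  apply Subfield.sum_mem
  intro i _
  rw [Algebra.smul_def]
  apply Subfield.mul_mem
  · have h1 : ((p.coeff i : F) : K) ∈ (F : Set K) ∪ {t} := Or.inl (p.coeff i).2
    exact Subfield.subset_closure h1
  · have h1 : t ∈ (F : Set K) ∪ {t} := Or.inr rfl
    exact Subfield.pow_mem _ (Subfield.subset_closure h1) _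

theorem acl_poly2' {K : Type} [Field K] (F : Subfield K) (t y : K) (n : ℕ)
    (p : ℕ → Polynomial F) (hn : Polynomial.aeval t (p n) ≠ 0)
    (h : ∑ i ∈ Finset.range (n + 1), Polynomial.aeval t (p i) * y ^ i = 0) :
    y ∈ acl ((F : Set K) ∪ {t}) := by
  rw [acl_iff]
  refine ⟨∑ i ∈ range (n + 1), Polynomial.C (Polynomial.aeval t (p i)) * Polynomial.X ^ i,
    ?_, ?_, ?_⟩
  · intro h0
    have := congrArg (fun q => Polynomial.coeff q n) h0
    simp only [Polynomial.finsetSum_coeff, Polynomial.coeff_C_mul_X_pow,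
      Polynomial.coeff_zero] at this
    rw [Finset.sum_ite_eq (range (n + 1)) n] at this
    simp at this
    exact hn this
  · intro i
    rw [Polynomial.finsetSum_coeff]
    apply Subfield.sum_mem
    intro j _
    rw [Polynomial.coeff_C_mul_X_pow]
    split_ifs
    · exact aeval_mem F t _
    · exact Subfield.zero_mem _
  · rw [Polynomial.eval_finsetSum, ← h]
    apply Finset.sum_congr rfl
    intro i _
    simp

theorem acl_union_closure {K : Type} [Field K] (S : Set K) (u : K) :
    acl (S ∪ {u}) = acl ((Subfield.closure S : Set K) ∪ {u}) := by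
  have h : Subfield.closure (S ∪ {u}) = Subfield.closure ((Subfield.closure S : Set K) ∪ {u}) := by
    rw [Subfield.closure_union, Subfield.closure_union, Subfield.closure_eq]
  unfold acl
  rw [h]

open Classical in
theorem acl_exch {K : Type} [Field K] (S : Set K) (u v : K) (hv : v ∈ acl (S ∪ {u}))
    (hv' : v ∉ acl S) : u ∈ acl (S ∪ {v}) := by
  set F := Subfield.closure S with hF
  rw [acl_union_closure] at hv ⊢
  rw [← hF] at hv ⊢
  obtain ⟨n, p, hn, hsum⟩ := acl_poly2 F u v hv
  -- swap the variables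
  let m : ℕ := (range (n + 1)).sup fun i => (p i).natDegree
  have hm : ∀ i ∈ range (n + 1), (p i).natDegree ≤ m := fun i hi =>
    Finset.le_sup (f := fun i => (p i).natDegree) hi
  let q : ℕ → Polynomial F := fun j =>
    ∑ i ∈ range (n + 1), Polynomial.C ((p i).coeff j) * Polynomial.X ^ i
  have hq : ∀ j, Polynomial.aeval v (q j) =
      ∑ i ∈ range (n + 1), algebraMap F K ((p i).coeff j) * v ^ i := by
    intro j
    simp only [q, map_sum, map_mul, map_pow, Polynomial.aeval_X, Polynomial.aeval_C]
  have hp : ∀ i ∈ range (n + 1), Polynomial.aeval u (p i) =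
      ∑ j ∈ range (m + 1), algebraMap F K ((p i).coeff j) * u ^ j := by
    intro i hi
    rw [Polynomial.aeval_eq_sum_range' (n := m + 1) (by have := hm i hi; omega)]
    apply Finset.sum_congr rfl
    intro j _
    rw [Algebra.smul_def]
  have hswap : ∑ j ∈ range (m + 1), Polynomial.aeval v (q j) * u ^ j = 0 := by
    rw [← hsum]
    simp only [hq, Finset.sum_mul]
    rw [Finset.sum_comm]
    apply Finset.sum_congr rfl
    intro i hi
    rw [hp i hi, Finset.sum_mul]
    apply Finset.sum_congr rfl
    intro j _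
    ring
  have hqn : ∀ j, q j ≠ 0 → Polynomial.aeval v (q j) ≠ 0 := by
    intro j hj h0
    apply hv'
    have : IsAlgebraic F v := ⟨q j, hj, h0⟩
    exact this
  have hex : ∃ j ∈ range (m + 1), q j ≠ 0 := by
    have h1 : p n ≠ 0 := by
      rintro h
      rw [h, map_zero] at hn
      exact hn rfl
    refine ⟨(p n).natDegree, ?_, ?_⟩
    · have := hm n (by simp)
      simp only [mem_range]
      omega
    · intro h0
      have h2 := congrArg (fun r => Polynomial.coeff r n) h0
      simp only [q, Polynomial.finsetSum_coeff, Polynomial.coeff_C_mul_X_pow,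
        Polynomial.coeff_zero] at h2
      rw [Finset.sum_ite_eq (range (n + 1)) n] at h2
      simp at h2
      exact h1 h2
  let J := (range (m + 1)).filter fun j => q j ≠ 0
  have hJ : J.Nonempty := by
    obtain ⟨j, hj, hj'⟩ := hex
    exact ⟨j, Finset.mem_filter.2 ⟨hj, hj'⟩⟩
  let N := J.max' hJ
  have hN : N ∈ J := J.max'_mem hJ
  have hN1 := Finset.mem_filter.1 hN
  refine acl_poly2' F v u N q (hqn N hN1.2) ?_
  rw [← hswap]
  apply Finset.sum_subset
  · intro i hi
    have := hN1.1
    simp only [mem_range] at hi this ⊢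
    omega
  · intro j hj hj'
    have h1 : q j = 0 := by
      by_contra h
      have h2 : j ∈ J := Finset.mem_filter.2 ⟨hj, h⟩
      have h3 := J.le_max' j h2
      simp only [mem_range] at hj'
      have h4 : N = J.max' hJ := rfl
      omega
    rw [h1, map_zero, zero_mul]

/-- PIECE F3. -/
theorem main_F3 : S_acl where
  sub := fun _ _ S => sub_acl S
  mono := fun _ _ S T => acl_mono S T
  idem := fun _ _ S => acl_idem S
  trans := fun _ _ S T => acl_trans S T
  field := fun _ _ S => acl_field S
  exch := fun _ _ S u v => acl_exch S u v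
  map := fun _ _ τ S y => acl_map τ S y
  countable := fun _ _ S => acl_countable S
  poly := fun _ _ F y => acl_poly F y
  poly2 := fun _ _ F t y => acl_poly2 F t y
  poly2' := fun _ _ F t y n p => acl_poly2' F t y n p

end Pool.Agent.Run7.h324.DA
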