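import Pool.Agent.Run7.h324.DA.Lau

/-!
# MP_5766af_al, piece F4a: a countable good parameter set
-/

set_option autoImplicit false

namespace Pool.Agent.Run7.h324.DA

open Pool.Agent.Run7.h378 Finset

theorem exists_countable_closure {E : Type} [Field E] [Algebra ℂ E] (x e : E)
    (he : e ∈ Subfield.closure (Set.range (algebraMap ℂ E) ∪ {x})) :
    ∃ P : Set ℂ, P.Countable ∧ e ∈ Subfield.closure ((algebraMap ℂ E '' P) ∪ {x}) := by
  have hmono : ∀ P Q : Set ℂ, P ⊆ Q → Subfield.closure ((algebraMap ℂ E '' P) ∪ {x}) ≤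
      Subfield.closure ((algebraMap ℂ E '' Q) ∪ {x}) := fun P Q h =>
    Subfield.closure_mono (Set.union_subset_union_left _ (Set.image_mono h))
  induction he using Subfield.closure_induction with
  | mem y hy =>
    rcases hy with ⟨c, rfl⟩ | hy
    · exact ⟨{c}, Set.countable_singleton c,
        Subfield.subset_closure (Or.inl ⟨c, rfl, rfl⟩)⟩
    · exact ⟨∅, Set.countable_empty, Subfield.subset_closure (Or.inr hy)⟩
  | one => exact ⟨∅, Set.countable_empty, Subfield.one_mem _⟩
  | add a b _ _ ha hb =>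
    obtain ⟨P, hP, ha⟩ := ha
    obtain ⟨Q, hQ, hb⟩ := hb
    exact ⟨P ∪ Q, hP.union hQ, Subfield.add_mem _ (hmono _ _ Set.subset_union_left ha)
      (hmono _ _ Set.subset_union_right hb)⟩
  | neg a _ ha =>
    obtain ⟨P, hP, ha⟩ := ha
    exact ⟨P, hP, Subfield.neg_mem _ ha⟩
  | inv a _ ha =>
    obtain ⟨P, hP, ha⟩ := ha
    exact ⟨P, hP, Subfield.inv_mem _ ha⟩
  | mul a b _ _ ha hb =>
    obtain ⟨P, hP, ha⟩ := ha
    obtain ⟨Q, hQ, hb⟩ := hb
    exact ⟨P ∪ Q, hP.union hQ, Subfield.mul_mem _ (hmono _ _ Set.subset_union_left ha)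
      (hmono _ _ Set.subset_union_right hb)⟩

theorem exists_countable_acl {E : Type} [Field E] [Algebra ℂ E] (x e : E)
    (he : e ∈ acl (Set.range (algebraMap ℂ E) ∪ {x})) :
    ∃ P : Set ℂ, P.Countable ∧ e ∈ acl ((algebraMap ℂ E '' P) ∪ {x}) := by
  rw [acl_iff] at he
  obtain ⟨p, hp, hc, hy⟩ := he
  choose P hP hP' using fun i => exists_countable_closure x _ (hc i)
  refine ⟨⋃ i, P i, Set.countable_iUnion hP, ?_⟩
  rw [acl_iff]
  refine ⟨p, hp, fun i => ?_, hy⟩
  exact Subfield.closure_mono (Set.union_subset_union_left _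
    (Set.image_mono (Set.subset_iUnion P i))) (hP' i)

/-- PIECE F4a. -/
theorem main_F4a : S_good := by
  intro _ E _ _ R
  choose P hP hP' using fun l => exists_countable_acl R.x (R.κ l) (R.alg _)
  choose Q hQ hQ' using fun l => exists_countable_acl R.x (R.α l) (R.alg _)
  refine ⟨(⋃ l, P l) ∪ (⋃ l, Q l),
    (Set.countable_iUnion hP).union (Set.countable_iUnion hQ), fun l => ⟨?_, ?_⟩⟩
  · exact acl_mono _ _ (Set.union_subset_union_left _
      (Set.image_mono ((Set.subset_iUnion P l).trans Set.subset_union_left))) (hP' l)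
  · exact acl_mono _ _ (Set.union_subset_union_left _
      (Set.image_mono ((Set.subset_iUnion Q l).trans Set.subset_union_right))) (hQ' l)

end Pool.Agent.Run7.h324.DA
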