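import Pool.Agent.Run7.h324.DA.Lau

/-!
# MP_5766af_al, piece F4b: the constants `ℂ((s))`
-/

set_option autoImplicit false

namespace Pool.Agent.Run7.h324.DA

open Pool.Agent.Run7.h378 Finset

variable {E : Type} [Field E] [Algebra ℂ E]

theorem closure_Ks : (Subfield.closure (Ks : Set (LaurentSeries E)) : Set (LaurentSeries E)) =
    Ks := by
  rw [← Ks_field, Subfield.closure_eq]

theorem single_mem (n : ℤ) : (HahnSeries.single n (1 : E) : LaurentSeries E) ∈ Ks := by
  intro k
  rw [HahnSeries.coeff_single]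
  split_ifs
  · exact ⟨1, map_one _⟩
  · exact ⟨0, map_zero _⟩

omit [Algebra ℂ E] in
theorem coeff_sum_pow (N : ℕ) (a : ℕ → LaurentSeries E) (h : LaurentSeries E)
    (ha : ∀ i, ∀ k < 0, (a i).coeff k = 0) (hh : ∀ k < 0, h.coeff k = 0) :
    (∑ i ∈ range N, a i * h ^ i).coeff 0 = ∑ i ∈ range N, (a i).coeff 0 * h.coeff 0 ^ i := by
  rw [HahnSeries.coeff_sum]
  apply Finset.sum_congr rfl
  intro i _
  have h1 := res_pow h hh i
  have h2 := res_mul (a i) (h ^ i) (ha i) h1.1
  rw [h2.2, h1.2]

/-- residues of integral elements algebraic over `ℂ((s))` are complex numbers -/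
theorem res_alg (h : LaurentSeries E) (hh : ∀ k < 0, h.coeff k = 0)
    (halg : h ∈ acl (Ks : Set (LaurentSeries E))) :
    h.coeff 0 ∈ Set.range (algebraMap ℂ E) := by
  rw [acl_iff] at halg
  obtain ⟨p, hp, hc, hy⟩ := halg
  have hc' : ∀ i, p.coeff i ∈ (Ks : Set (LaurentSeries E)) := by
    intro i
    rw [← closure_Ks]
    exact hc i
  have hne : p.support.Nonempty := Polynomial.support_nonempty.2 hp
  obtain ⟨i0, hi0, hmin⟩ := Finset.exists_min_image p.support (fun i => (p.coeff i).order) hne
  set d := (p.coeff i0).order with hd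
  let a : ℕ → LaurentSeries E := fun i => HahnSeries.single (-d) (1 : E) * p.coeff i
  have hak : ∀ i k, (a i).coeff k = (p.coeff i).coeff (k + d) := by
    intro i k
    simp only [a]
    rw [HahnSeries.coeff_single_mul, one_mul]
    congr 1
    ring
  have ha : ∀ i, ∀ k < 0, (a i).coeff k = 0 := by
    intro i k hk
    rw [hak]
    by_cases h0 : p.coeff i = 0
    · rw [h0]; rfl
    · have h1 : d ≤ (p.coeff i).order := hmin i (Polynomial.mem_support_iff.2 h0)
      apply HahnSeries.coeff_eq_zero_of_lt_order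
      omega
  have ha0 : (a i0).coeff 0 ≠ 0 := by
    rw [hak, zero_add, hd]
    rw [Polynomial.mem_support_iff] at hi0
    rw [Ne, HahnSeries.coeff_order_eq_zero]
    exact hi0
  have haC : ∀ i, ∃ c : ℂ, algebraMap ℂ E c = (a i).coeff 0 := by
    intro i
    rw [hak]
    exact hc' i _
  choose c hcc using haC
  have hsum : ∑ i ∈ range (p.natDegree + 1), a i * h ^ i = 0 := by
    have h1 : ∑ i ∈ range (p.natDegree + 1), p.coeff i * h ^ i = 0 := by
      rw [← Polynomial.eval_eq_sum_range]
      exact hy
    simp only [a, mul_assoc]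
    rw [← Finset.mul_sum, h1, mul_zero]
  have hsum0 : ∑ i ∈ range (p.natDegree + 1), algebraMap ℂ E (c i) * h.coeff 0 ^ i = 0 := by
    have h1 := coeff_sum_pow (p.natDegree + 1) a h ha hh
    rw [hsum] at h1
    simp only [hcc]
    rw [← h1]
    rfl
  have halgE : IsAlgebraic ℂ (h.coeff 0) := by
    refine ⟨∑ i ∈ range (p.natDegree + 1), Polynomial.C (c i) * Polynomial.X ^ i, ?_, ?_⟩
    · intro h0
      have h1 := congrArg (fun q => Polynomial.coeff q i0) h0
      simp only [Polynomial.finsetSum_coeff, Polynomial.coeff_C_mul_X_pow,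
        Polynomial.coeff_zero] at h1
      rw [Finset.sum_ite_eq (range (p.natDegree + 1)) i0] at h1
      have h2 : i0 ∈ range (p.natDegree + 1) := by
        have := Polynomial.le_natDegree_of_mem_supp i0 hi0
        simp only [mem_range]
        omega
      rw [if_pos h2] at h1
      apply ha0
      rw [← hcc, h1, map_zero]
    · rw [map_sum, ← hsum0]
      apply Finset.sum_congr rfl
      intro i _
      simp
  have hint : IsIntegral ℂ (h.coeff 0) := halgE.isIntegral
  exact minpoly.mem_range_of_degree_eq_one ℂ _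
    (IsAlgClosed.degree_eq_one_of_irreducible ℂ (minpoly.irreducible hint))

theorem Ks_alg_closed (h : LaurentSeries E) (halg : h ∈ acl (Ks : Set (LaurentSeries E))) :
    h ∈ Ks := by
  by_contra hn
  have hex : ∃ n : ℤ, h.coeff n ∉ Set.range (algebraMap ℂ E) := by
    by_contra hc
    push Not at hc
    exact hn hc
  have hne : h ≠ 0 := by
    rintro rfl
    obtain ⟨n, hn⟩ := hex
    exact hn ⟨0, by simp⟩
  -- the first bad coefficient
  have hfirst : ∃ n : ℤ, h.coeff n ∉ Set.range (algebraMap ℂ E) ∧
      ∀ k < n, h.coeff k ∈ Set.range (algebraMap ℂ E) := by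
    have hb : ∃ b : ℤ, ∀ z : ℤ, h.coeff z ∉ Set.range (algebraMap ℂ E) → b ≤ z := by
      refine ⟨h.order, fun z hz => ?_⟩
      by_contra hlt
      apply hz
      rw [HahnSeries.coeff_eq_zero_of_lt_order (by omega)]
      exact ⟨0, map_zero _⟩
    obtain ⟨n, h1, h2⟩ := Int.exists_least_of_bdd hb hex
    refine ⟨n, h1, fun k hk => ?_⟩
    by_contra hc
    have := h2 k hc
    omega
  obtain ⟨n, hn1, hn2⟩ := hfirst
  let T : LaurentSeries E := HahnSeries.truncLT n h
  have hT : T ∈ Ks := by
    intro k
    simp only [T, HahnSeries.coeff_truncLT]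
    split_ifs with hk
    · exact hn2 k hk
    · exact ⟨0, map_zero _⟩
  let h' : LaurentSeries E := HahnSeries.single (-n) (1 : E) * (h - T)
  have hh' : ∀ k, h'.coeff k = (h - T).coeff (k + n) := by
    intro k
    simp only [h']
    rw [HahnSeries.coeff_single_mul, one_mul]
    congr 1
    ring
  have h1 : ∀ k < 0, h'.coeff k = 0 := by
    intro k hk
    rw [hh', HahnSeries.coeff_sub]
    simp only [T, HahnSeries.coeff_truncLT]
    rw [if_pos (by omega), sub_self]
  have h2 : h'.coeff 0 = h.coeff n := by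
    rw [hh', zero_add, HahnSeries.coeff_sub]
    simp only [T, HahnSeries.coeff_truncLT]
    rw [if_neg (by omega), sub_zero]
  obtain ⟨A, hA⟩ := acl_field (Ks : Set (LaurentSeries E))
  have h3 : h' ∈ A := by
    have e1 : HahnSeries.single (-n) (1 : E) ∈ A := by
      have : HahnSeries.single (-n) (1 : E) ∈ (A : Set (LaurentSeries E)) := by
        rw [hA]
        exact sub_acl _ (single_mem _)
      exact this
    have e2 : h ∈ A := by
      have : h ∈ (A : Set (LaurentSeries E)) := by
        rw [hA]
        exact halg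
      exact this
    have e3 : T ∈ A := by
      have : T ∈ (A : Set (LaurentSeries E)) := by
        rw [hA]
        exact sub_acl _ hT
      exact this
    exact A.mul_mem e1 (A.sub_mem e2 e3)
  have h4 : h' ∈ acl (Ks : Set (LaurentSeries E)) := by
    rw [← hA]
    exact h3
  have h5 := res_alg h' h1 h4
  rw [h2] at h5
  exact hn1 h5

theorem single_eq (n : ℤ) (c : ℂ) :
    (HahnSeries.single n (algebraMap ℂ E c) : LaurentSeries E) = cH c * sH ^ n := by
  have h1 : (sH : LaurentSeries E) ^ n = HahnSeries.single n 1 := by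
    unfold sH
    have hnat : ∀ m : ℕ, (HahnSeries.single 1 1 : LaurentSeries E) ^ m =
        HahnSeries.single (m : ℤ) 1 := by
      intro m
      rw [HahnSeries.single_pow, one_pow]
      simp
    rcases Int.eq_nat_or_neg n with ⟨m, rfl | rfl⟩
    · rw [zpow_natCast, hnat]
    · rw [zpow_neg, zpow_natCast, hnat]
      apply inv_eq_of_mul_eq_one_right
      rw [HahnSeries.single_mul_single]
      simp
  rw [h1]
  unfold cH eH
  rw [RingHom.comp_apply, HahnSeries.C_apply, HahnSeries.single_mul_single]
  simp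

theorem adm_fixed (ρ : E ≃ₐ[ℂ] E) (τ : LaurentSeries E ≃+* LaurentSeries E) (hτ : Adm ρ τ)
    (h : LaurentSeries E) (hh : h ∈ Ks) : τ h = h := by
  by_contra hne
  have hD : τ h - h ≠ 0 := sub_ne_zero.2 hne
  set n := (τ h - h).order with hn
  -- the truncation
  let T : LaurentSeries E :=
    ∑ i ∈ Finset.Icc h.order n, HahnSeries.single i (h.coeff i)
  have hTτ : τ T = T := by
    simp only [T]
    rw [map_sum]
    apply Finset.sum_congr rfl
    intro i _
    obtain ⟨c, hc⟩ := hh i
    rw [← hc, single_eq, map_mul, map_zpow₀, hτ.map_s, hτ.map_c]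
  have hT : ∀ k ≤ n, (h - T).coeff k = 0 := by
    intro k hk
    rw [HahnSeries.coeff_sub]
    simp only [T]
    rw [HahnSeries.coeff_sum]
    by_cases h1 : k ∈ Finset.Icc h.order n
    · rw [Finset.sum_eq_single k, HahnSeries.coeff_single_same, sub_self]
      · intro j _ hj
        exact HahnSeries.coeff_single_of_ne (Ne.symm hj)
      · intro h2
        exact absurd h1 h2
    · rw [Finset.sum_eq_zero, sub_zero]
      · apply HahnSeries.coeff_eq_zero_of_lt_order
        rw [Finset.mem_Icc] at h1
        omega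
      · intro j hj
        apply HahnSeries.coeff_single_of_ne
        rintro rfl
        exact h1 hj
  have h1 : ((n + 1 : ℤ) : WithTop ℤ) ≤ vH (h - T) := by
    rw [le_vH_iff]
    intro k hk
    exact hT k (by omega)
  have h2 : ((n + 1 : ℤ) : WithTop ℤ) ≤ vH (τ (h - T)) := by
    rw [hτ.map_v]
    exact h1
  have h3 : τ h - h = τ (h - T) - (h - T) := by
    rw [map_sub, hTτ]
    ring
  have h4 : (τ h - h).coeff n = 0 := by
    rw [h3, HahnSeries.coeff_sub, (le_vH_iff _ _).1 h2 n (by omega),
      (le_vH_iff _ _).1 h1 n (by omega), sub_self]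
  rw [hn, HahnSeries.coeff_order_eq_zero] at h4
  exact hD h4

/-- PIECE F4b. -/
theorem main_F4b : S_Ks := by
  intro _ E _ _ R
  refine ⟨⟨_, Ks_field⟩, Ks_alg_closed, adm_fixed, ?_, cH_mem, sH_mem, ?_, ?_, ?_, ?_⟩
  · intro h n _ hn hK
    exact hn (hK n)
  · intro hK
    have := hK 0
    rw [coeff_eH, if_pos rfl] at this
    exact R.x_tr this
  · intro e he
    ext n
    rw [he, coeff_sH, HahnSeries.coeff_neg, coeff_sH]
    split_ifs with h
    · subst h
      simp
    · simp
  · intro e he c
    ext n
    rw [he, coeff_cH]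
    split_ifs with h
    · subst h
      simp
    · simp
  · intro e he h
    ext n
    rw [he, he, map_mul, R.ε_sq]
    have h1 : R.ε ((-1 : E) ^ n) = (-1) ^ n := by
      rw [map_zpow₀, map_neg, map_one]
    rw [h1, ← mul_assoc, ← mul_zpow]
    simp

end Pool.Agent.Run7.h324.DA
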