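import Pool.Agent.Run7.h324.DA.Lau

/-!
# MP_5766af_al, piece F5': facts about the fields `Mf P`
-/

set_option autoImplicit false

namespace Pool.Agent.Run7.h324.DA

open Pool.Agent.Run7.h378 Finset

variable {E : Type} [Field E] [Algebra ℂ E]

/-- everything algebraic over `T` if the generators are -/
theorem acl_le {K : Type} [Field K] (S T : Set K) (h : S ⊆ acl T) : acl S ⊆ acl T :=
  (acl_mono _ _ h).trans (acl_idem T)

theorem acl_neg {K : Type} [Field K] (S : Set K) (a : K) (h : a ∈ acl S) : -a ∈ acl S := by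
  obtain ⟨F, hF⟩ := acl_field S
  rw [← hF] at h ⊢
  exact F.neg_mem h

theorem acl_sq {K : Type} [Field K] (S : Set K) (a : K) (h : a ^ 2 ∈ acl S) : a ∈ acl S := by
  have h0 : a ∈ acl (acl S) := by
    obtain ⟨F, hF⟩ := acl_field S
    rw [← hF] at h
    rw [acl_iff]
    refine ⟨Polynomial.X ^ 2 - Polynomial.C (a ^ 2), ?_, ?_, ?_⟩
    · exact Polynomial.X_pow_sub_C_ne_zero (by norm_num) _
    · intro i
      rw [← hF, Subfield.closure_eq, Polynomial.coeff_sub, Polynomial.coeff_X_pow,
        Polynomial.coeff_C]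
      apply F.sub_mem
      · split_ifs
        · exact F.one_mem
        · exact F.zero_mem
      · split_ifs
        · exact h
        · exact F.zero_mem
    · simp
  exact acl_idem S h0

theorem eps_eH (R : Res E) (eps : LaurentSeries E ≃+* LaurentSeries E) (he : IsEps R eps)
    (e : E) : eps (eH e) = eH (R.ε e) := by
  ext n
  rw [he, coeff_eH, coeff_eH]
  split_ifs with h
  · subst h
    simp
  · simp

/-- PIECE F5'. -/
theorem main_F5p : S_Mf := by
  intro _ E _ _ R KF eps heps
  have hx : eps (eH R.x) = eH R.x := by rw [eps_eH R eps heps, R.ε_x]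
  have hs : eps sH = -sH := KF.eps_s eps heps
  have hc : ∀ c : ℂ, eps (cH c) = cH c := KF.eps_c eps heps
  have hs2 : eps (sH ^ 2) = sH ^ 2 := by rw [map_pow, hs]; ring
  have x_mem : ∀ P, eH R.x ∈ Mf R eps P := fun P =>
    ⟨hx, sub_acl _ (Or.inr (Or.inr rfl))⟩
  have s_acl : ∀ P, (sH : LaurentSeries E) ∈ acl (gens R P) := fun P =>
    sub_acl _ (Or.inr (Or.inl rfl))
  have s_mem : ∀ P, sH ^ 2 ∈ Mf R eps P := by
    intro P
    refine ⟨hs2, ?_⟩
    obtain ⟨F, hF⟩ := acl_field (gens R P)
    have h := s_acl P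
    rw [← hF] at h ⊢
    exact F.pow_mem h 2
  have c_mem : ∀ P : Set ℂ, ∀ c ∈ P, cH c ∈ Mf R eps P := fun P c hcP =>
    ⟨hc c, sub_acl _ (Or.inl ⟨c, hcP, rfl⟩)⟩
  have gmono : ∀ P P' : Set ℂ, P ⊆ P' → gens R P ⊆ gens R P' := fun P P' h =>
    Set.union_subset_union_left _ (Set.image_mono h)
  have eps_acl : ∀ P h, h ∈ acl (gens R P) → eps h ∈ acl (gens R P) := by
    intro P h hh
    have h1 := acl_map eps (gens R P) h hh
    refine acl_le _ _ ?_ h1
    rintro _ ⟨g, hg, rfl⟩
    rcases hg with ⟨c, hcP, rfl⟩ | rfl | rfl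
    · rw [hc]
      exact sub_acl _ (Or.inl ⟨c, hcP, rfl⟩)
    · rw [hs]
      exact acl_neg _ _ (s_acl P)
    · rw [hx]
      exact sub_acl _ (Or.inr (Or.inr rfl))
  have inter' : ∀ P t y, t ∈ acl (gens R P) → t ∉ Ks → y ∈ acl (gens R P) →
      y ∈ acl ((cH '' P) ∪ {sH} ∪ {t}) := by
    intro P t y ht htK hy
    have hB : gens R P = (cH '' P) ∪ {sH} ∪ {eH R.x} := by
      unfold gens
      rw [Set.union_assoc]
      rfl
    have hBK : ((cH '' P) ∪ {sH} : Set (LaurentSeries E)) ⊆ Ks := by
      rintro _ (⟨c, _, rfl⟩ | rfl)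
      · exact cH_mem c
      · exact sH_mem
    rw [hB] at ht
    have h1 : t ∉ acl ((cH '' P) ∪ {sH}) := fun h =>
      htK (KF.alg_closed t (acl_mono _ _ hBK h))
    have h2 := acl_exch _ _ _ ht h1
    refine acl_le _ _ ?_ hy
    rw [hB]
    rintro g (hg | rfl)
    · exact sub_acl _ (Or.inl hg)
    · exact h2
  refine ⟨?_, ?_, ?_, x_mem, s_mem, c_mem, ?_, eps_acl, ?_, ?_, inter'⟩
  · -- field
    intro P
    obtain ⟨F, hF⟩ := acl_field (gens R P)
    let G : Subfield (LaurentSeries E) :=
      { carrier := {h | eps h = h}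
        mul_mem' := fun {a b} ha hb => by
          show eps (a * b) = a * b
          rw [map_mul, show eps a = a from ha, show eps b = b from hb]
        one_mem' := map_one _
        add_mem' := fun {a b} ha hb => by
          show eps (a + b) = a + b
          rw [map_add, show eps a = a from ha, show eps b = b from hb]
        zero_mem' := map_zero _
        neg_mem' := fun {a} ha => by
          show eps (-a) = -a
          rw [map_neg, show eps a = a from ha]
        inv_mem' := fun a ha => by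
          show eps a⁻¹ = a⁻¹
          rw [map_inv₀, show eps a = a from ha] }
    refine ⟨G ⊓ F, ?_⟩
    ext h
    constructor
    · rintro ⟨h1, h2⟩
      refine ⟨h1, ?_⟩
      rw [← hF]
      exact h2
    · rintro ⟨h1, h2⟩
      refine ⟨h1, ?_⟩
      rw [← hF] at h2
      exact h2
  · -- mono
    intro P P' h y hy
    exact ⟨hy.1, acl_mono _ _ (gmono _ _ h) hy.2⟩
  · -- countable
    intro P hP
    apply Set.Countable.mono (s₂ := acl (gens R P)) (fun y hy => hy.2)
    apply acl_countable
    exact (hP.image _).union ((Set.countable_singleton _).insert _)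
  · -- acl_eq
    intro P
    apply Set.Subset.antisymm
    · exact acl_le _ _ (fun y hy => hy.2)
    · apply acl_le
      rintro g (⟨c, hcP, rfl⟩ | rfl | rfl)
      · exact sub_acl _ (c_mem P c hcP)
      · exact acl_sq _ _ (sub_acl _ (s_mem P))
      · exact sub_acl _ (x_mem P)
  · -- map
    intro P P' ρ τ hPP hτ hcomm hτx
    have key : ∀ h, h ∈ acl (gens R P) → τ h ∈ acl (gens R P') := by
      intro h hh
      have h1 := acl_map τ (gens R P) h hh
      refine acl_le _ _ ?_ h1
      rintro _ ⟨g, hg, rfl⟩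
      rcases hg with ⟨c, hcP, rfl⟩ | rfl | rfl
      · rw [hτ.map_c]
        exact sub_acl _ (Or.inl ⟨c, hPP hcP, rfl⟩)
      · rw [hτ.map_s]
        exact s_acl P'
      · exact hτx
    intro h
    refine ⟨fun hh => ⟨?_, key h hh.2⟩, key h⟩
    rw [hcomm, hh.1]
  · -- inter
    intro P t y ht htK hy
    have h1 := inter' P t y ht.2 htK hy.2
    refine acl_le _ _ ?_ h1
    rintro g ((⟨c, hcP, rfl⟩ | rfl) | rfl)
    · exact sub_acl _ (Or.inl ⟨c_mem P c hcP, cH_mem c⟩)
    · apply acl_sq
      apply sub_acl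
      refine Or.inl ⟨s_mem P, ?_⟩
      obtain ⟨F, hF⟩ := KF.field
      have h2 : (sH : LaurentSeries E) ∈ (F : Set (LaurentSeries E)) := by
        rw [hF]
        exact sH_mem
      rw [← hF]
      exact F.pow_mem h2 2
    · exact sub_acl _ (Or.inr rfl)

end Pool.Agent.Run7.h324.DA
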