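import Pool.Agent.Run7.h378.IfaceF
import Pool.Agent.Run7.h324.DA.F3

/-!
# MP_5766af_al: helper lemmas on Laurent series
-/

set_option autoImplicit false

namespace Pool.Agent.Run7.h324.DA

open Pool.Agent.Run7.h378 Finset

variable {E : Type} [Field E]

theorem vH_eq (h : LaurentSeries E) : vH h = HahnSeries.orderTop h := HahnSeries.addVal_apply

theorem le_vH_iff (h : LaurentSeries E) (n : ℤ) :
    (n : WithTop ℤ) ≤ vH h ↔ ∀ k < n, h.coeff k = 0 := by
  rw [vH_eq, HahnSeries.le_orderTop_iff_forall]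
  constructor
  · intro h k hk
    exact h k (by exact_mod_cast hk)
  · intro h k hk
    exact h k (by exact_mod_cast hk)

theorem vH_eq_iff (h : LaurentSeries E) (n : ℤ) :
    vH h = (n : WithTop ℤ) ↔ (∀ k < n, h.coeff k = 0) ∧ h.coeff n ≠ 0 := by
  constructor
  · intro hn
    refine ⟨(le_vH_iff h n).1 hn.ge, ?_⟩
    rw [vH_eq] at hn
    exact HahnSeries.coeff_orderTop_ne hn
  · rintro ⟨h1, h2⟩
    apply le_antisymm
    · rw [vH_eq]
      exact HahnSeries.orderTop_le_of_coeff_ne_zero h2
    · exact (le_vH_iff h n).2 h1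

/-- coefficient of a product at the sum of the lower bounds -/
theorem coeff_mul_low (a b : LaurentSeries E) (i j : ℤ) (ha : ∀ k < i, a.coeff k = 0)
    (hb : ∀ k < j, b.coeff k = 0) : (a * b).coeff (i + j) = a.coeff i * b.coeff j := by
  rw [HahnSeries.coeff_mul]
  by_cases h : a.coeff i ≠ 0 ∧ b.coeff j ≠ 0
  · rw [Finset.sum_eq_single (i, j)]
    · rintro ⟨p, q⟩ hpq hne
      simp only [Finset.mem_antidiagonal, HahnSeries.mem_support] at hpq
      obtain ⟨h1, h2, h3⟩ := hpq
      have hp : i ≤ p := by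
        by_contra hlt
        exact h1 (ha p (by omega))
      have hq : j ≤ q := by
        by_contra hlt
        exact h2 (hb q (by omega))
      exfalso
      apply hne
      rw [Prod.mk.injEq]
      omega
    · intro hnot
      exfalso
      apply hnot
      simp only [Finset.mem_antidiagonal, HahnSeries.mem_support]
      exact ⟨h.1, h.2, trivial⟩
  · have h0 : a.coeff i * b.coeff j = 0 := by
      rw [mul_eq_zero]
      by_contra hc
      push Not at hc
      exact h hc
    rw [h0]
    apply Finset.sum_eq_zero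
    rintro ⟨p, q⟩ hpq
    simp only [Finset.mem_antidiagonal, HahnSeries.mem_support] at hpq
    obtain ⟨h1, h2, h3⟩ := hpq
    have hp : i ≤ p := by
      by_contra hlt
      exact h1 (ha p (by omega))
    have hq : j ≤ q := by
      by_contra hlt
      exact h2 (hb q (by omega))
    have hpi : p = i := by omega
    have hqj : q = j := by omega
    subst hpi hqj
    exact h0

theorem coeff_mul_lt (a b : LaurentSeries E) (i j : ℤ) (ha : ∀ k < i, a.coeff k = 0)
    (hb : ∀ k < j, b.coeff k = 0) (k : ℤ) (hk : k < i + j) : (a * b).coeff k = 0 := by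
  rw [HahnSeries.coeff_mul]
  apply Finset.sum_eq_zero
  rintro ⟨p, q⟩ hpq
  simp only [Finset.mem_antidiagonal, HahnSeries.mem_support] at hpq
  obtain ⟨h1, h2, h3⟩ := hpq
  have hp : i ≤ p := by
    by_contra hlt
    exact h1 (ha p (by omega))
  have hq : j ≤ q := by
    by_contra hlt
    exact h2 (hb q (by omega))
  omega

/-- integral elements: residue is multiplicative -/
theorem res_mul (a b : LaurentSeries E) (ha : ∀ k < 0, a.coeff k = 0)
    (hb : ∀ k < 0, b.coeff k = 0) : (∀ k < 0, (a * b).coeff k = 0) ∧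
    (a * b).coeff 0 = a.coeff 0 * b.coeff 0 := by
  refine ⟨fun k hk => coeff_mul_lt a b 0 0 ha hb k (by omega), ?_⟩
  have := coeff_mul_low a b 0 0 ha hb
  simpa using this

theorem res_pow (a : LaurentSeries E) (ha : ∀ k < 0, a.coeff k = 0) (n : ℕ) :
    (∀ k < 0, (a ^ n).coeff k = 0) ∧ (a ^ n).coeff 0 = a.coeff 0 ^ n := by
  induction n with
  | zero =>
    rw [pow_zero, pow_zero]
    constructor
    · intro k hk
      rw [HahnSeries.coeff_one, if_neg (by omega)]
    · rw [HahnSeries.coeff_one, if_pos rfl]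
  | succ n ih =>
    rw [pow_succ, pow_succ]
    have := res_mul (a ^ n) a ih.1 ha
    exact ⟨this.1, by rw [this.2, ih.2]⟩

variable [Algebra ℂ E]

/-- the coefficientwise map `ℂ((s)) → E((s))` -/
noncomputable def mapC : LaurentSeries ℂ →+* LaurentSeries E where
  toFun x := x.map (algebraMap ℂ E)
  map_one' := by
    ext n
    simp only [HahnSeries.map_coeff, HahnSeries.coeff_one]
    split_ifs <;> simp
  map_mul' x y := by
    have := HahnSeries.map_mul ((algebraMap ℂ E : ℂ →+* E) : ℂ →ₙ+* E) (x := x) (y := y)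
    exact this
  map_zero' := by
    ext
    simp
  map_add' x y := by
    ext
    simp

theorem coeff_mapC (x : LaurentSeries ℂ) (n : ℤ) :
    (mapC (E := E) x).coeff n = algebraMap ℂ E (x.coeff n) := rfl

theorem mem_Ks_iff (h : LaurentSeries E) :
    h ∈ Ks ↔ h ∈ (mapC (E := E)).fieldRange := by
  constructor
  · intro hh
    choose c hc using hh
    have hsup : (Function.support c).IsPWO := by
      apply h.isPWO_support.mono
      intro n hn
      rw [HahnSeries.mem_support, ← hc n]
      intro h0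
      apply hn
      exact (map_eq_zero (algebraMap ℂ E)).1 h0
    refine ⟨⟨c, hsup⟩, ?_⟩
    ext n
    rw [coeff_mapC]
    exact hc n
  · rintro ⟨x, rfl⟩ n
    exact ⟨x.coeff n, (coeff_mapC x n).symm⟩

theorem Ks_field : ((mapC (E := E)).fieldRange : Set (LaurentSeries E)) = Ks := by
  ext h
  exact (mem_Ks_iff h).symm

theorem coeff_cH (c : ℂ) (n : ℤ) :
    (cH (E := E) c).coeff n = if n = 0 then algebraMap ℂ E c else 0 := by
  unfold cH eH
  rw [RingHom.comp_apply, HahnSeries.C_apply, HahnSeries.coeff_single]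
  split_ifs <;> rfl

omit [Algebra ℂ E] in
theorem coeff_eH (e : E) (n : ℤ) : (eH e).coeff n = if n = 0 then e else 0 := by
  unfold eH
  rw [HahnSeries.C_apply, HahnSeries.coeff_single]
  split_ifs <;> rfl

omit [Algebra ℂ E] in
theorem coeff_sH (n : ℤ) : (sH (E := E)).coeff n = if n = 1 then 1 else 0 := by
  unfold sH
  rw [HahnSeries.coeff_single]
  split_ifs <;> rfl

theorem cH_mem (c : ℂ) : cH (E := E) c ∈ Ks := by
  intro n
  rw [coeff_cH]
  split_ifs
  · exact ⟨c, rfl⟩
  · exact ⟨0, map_zero _⟩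

theorem sH_mem : sH (E := E) ∈ Ks := by
  intro n
  rw [coeff_sH]
  split_ifs
  · exact ⟨1, map_one _⟩
  · exact ⟨0, map_zero _⟩

end Pool.Agent.Run7.h324.DA
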